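import Pool.Agent.K1H80.KA.StmT

/-!
# BASEALG: triangle times odd cycle, algebraic version
-/

namespace Pool.Agent.K1H86.KT

open Pool.Agent.KA

lemma iter_val {m : ℕ} (t : Fin (m + 3)) (j : ℕ) :
    (((fun u : Fin (m + 3) => u + 1)^[j] t : Fin (m + 3)) : ℕ) = (t.val + j) % (m + 3) := by
  induction j with
  | zero => simp [Nat.mod_eq_of_lt t.isLt]
  | succ j ih =>
    rw [Function.iterate_succ_apply', Fin.val_add, ih]
    have : ((1 : Fin (m + 3)) : ℕ) = 1 := by simp
    rw [this, Nat.mod_add_mod]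
    congr 1

lemma odd_cycle {L : Type} [Field L] (E : Subfield L) {m : ℕ} (hm : Odd (m + 3))
    (d : Fin (m + 3) → L) (hd : ∀ t, d t ≠ 0) (h : ∀ t, d t * d (t + 1) ∈ E) (t : Fin (m + 3)) :
    d t * d t ∈ E := by
  have key : ∀ k : ℕ, d t * d ((fun u : Fin (m + 3) => u + 1)^[2 * k + 1] t) ∈ E := by
    intro k
    induction k with
    | zero =>
      have := h t
      simpa using this
    | succ k ih =>
      set p := (fun u : Fin (m + 3) => u + 1)^[2 * k + 1] t with hp
      have h1 := h p
      have h2 := h (p + 1)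
      have e : (fun u : Fin (m + 3) => u + 1)^[2 * (k + 1) + 1] t = p + 1 + 1 := by
        have : 2 * (k + 1) + 1 = (2 * k + 1) + 1 + 1 := by ring
        rw [this, Function.iterate_succ_apply', Function.iterate_succ_apply', ← hp]
      rw [e]
      have n1 := hd p
      have n2 := hd (p + 1)
      have : d t * d (p + 1 + 1) = (d t * d p) * (d (p + 1) * d (p + 1 + 1)) /
          (d p * d (p + 1)) := by
        field_simp
      rw [this]
      exact E.div_mem (E.mul_mem ih h2) h1
  obtain ⟨k, hk⟩ := hm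
  have := key k
  rw [← hk] at this
  have z : (fun u : Fin (m + 3) => u + 1)^[m + 3] t = t := by
    apply Fin.ext
    rw [iter_val, Nat.add_mod_right, Nat.mod_eq_of_lt t.isLt]
  rw [z] at this
  exact this

theorem basealg : BASEALGStm := by
  intro V W L _ G H x hx E hsq hE a ha m c hm hc hadj
  have hainj : Function.Injective a := by
    intro s t hst
    by_contra hne
    have := ha s t hne
    rw [hst] at this
    exact (G.ne_of_adj this) rfl
  -- the columns
  set X : Fin (m + 3) → Fin 3 → L := fun t s => x (a s) (c t) with hX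
  have hP : ∀ t s s', s ≠ s' → X t s * X (t + 1) s' - X (t + 1) s * X t s' ∈ E := by
    intro t s s' hs
    exact hE (a s) (a s') (c t) (c (t + 1)) (ha s s' hs) (hadj t)
  have h1 : ∀ t : Fin (m + 3), t ≠ t + 1 := by
    intro t h
    have : (1 : Fin (m + 3)) = 0 := by
      have := h.symm
      rwa [add_eq_left] at this
    exact absurd this (by simp [Fin.ext_iff])
  have h2 : ∀ t : Fin (m + 3), t ≠ t + 1 + 1 := by
    intro t h
    have : (1 + 1 : Fin (m + 3)) = 0 := by
      have := h.symm
      rwa [add_assoc, add_eq_left] at this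
    have h3 := congrArg Fin.val this
    rw [Fin.val_add] at h3
    simp at h3
    rw [Nat.mod_eq_of_lt (by omega)] at h3
    omega
  set d : Fin (m + 3) → L := fun t =>
    X t 0 * (X (t + 1) 1 * X (t + 1 + 1) 2 - X (t + 1) 2 * X (t + 1 + 1) 1)
      - X t 1 * (X (t + 1) 0 * X (t + 1 + 1) 2 - X (t + 1) 2 * X (t + 1 + 1) 0)
      + X t 2 * (X (t + 1) 0 * X (t + 1 + 1) 1 - X (t + 1) 1 * X (t + 1 + 1) 0) with hddef
  have hd : ∀ t, d t ≠ 0 := by
    intro t h
    have hb : Function.Injective ![c t, c (t + 1), c (t + 1 + 1)] := by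
      intro u v huv
      fin_cases u <;> fin_cases v <;> simp at huv ⊢
      · exact h1 _ (hc huv)
      · exact h2 _ (hc huv)
      · exact h1 _ (hc huv).symm
      · exact h1 _ (hc huv)
      · exact h2 _ (hc huv).symm
      · exact h1 _ (hc huv).symm
    apply hx.three a ![c t, c (t + 1), c (t + 1 + 1)] hainj hb
    rw [Matrix.det_fin_three]
    simp only [Matrix.of_apply, Matrix.cons_val_zero, Matrix.cons_val_one, Matrix.cons_val]
    rw [← h]
    simp only [hddef, hX]
    ring
  have hA : ∀ t s, d t * X (t + 1) s ∈ E := by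
    intro t s
    have p01 := hP t 0 1 (by decide)
    have p02 := hP t 0 2 (by decide)
    have p12 := hP t 1 2 (by decide)
    have q01 := hP (t + 1) 0 1 (by decide)
    have q02 := hP (t + 1) 0 2 (by decide)
    have q12 := hP (t + 1) 1 2 (by decide)
    fin_cases s
    · have := E.sub_mem (E.mul_mem p01 q02) (E.mul_mem p02 q01)
      have e : d t * X (t + 1) 0 =
          (X t 0 * X (t + 1) 1 - X (t + 1) 0 * X t 1) *
            (X (t + 1) 0 * X (t + 1 + 1) 2 - X (t + 1 + 1) 0 * X (t + 1) 2) -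
          (X t 0 * X (t + 1) 2 - X (t + 1) 0 * X t 2) *
            (X (t + 1) 0 * X (t + 1 + 1) 1 - X (t + 1 + 1) 0 * X (t + 1) 1) ∨
          d t * X (t + 1) 0 = -(
          (X t 0 * X (t + 1) 1 - X (t + 1) 0 * X t 1) *
            (X (t + 1) 0 * X (t + 1 + 1) 2 - X (t + 1 + 1) 0 * X (t + 1) 2) -
          (X t 0 * X (t + 1) 2 - X (t + 1) 0 * X t 2) *
            (X (t + 1) 0 * X (t + 1 + 1) 1 - X (t + 1 + 1) 0 * X (t + 1) 1)) := by
        first
        | (left; simp only [hddef]; ring)
        | (right; simp only [hddef]; ring)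
      show d t * X (t + 1) 0 ∈ E
      rcases e with e | e
      · rw [e]; exact this
      · rw [e]; exact E.neg_mem this
    · have := E.sub_mem (E.mul_mem p01 q12) (E.mul_mem p12 q01)
      have e : d t * X (t + 1) 1 =
          (X t 0 * X (t + 1) 1 - X (t + 1) 0 * X t 1) *
            (X (t + 1) 1 * X (t + 1 + 1) 2 - X (t + 1 + 1) 1 * X (t + 1) 2) -
          (X t 1 * X (t + 1) 2 - X (t + 1) 1 * X t 2) *
            (X (t + 1) 0 * X (t + 1 + 1) 1 - X (t + 1 + 1) 0 * X (t + 1) 1) ∨
          d t * X (t + 1) 1 = -(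
          (X t 0 * X (t + 1) 1 - X (t + 1) 0 * X t 1) *
            (X (t + 1) 1 * X (t + 1 + 1) 2 - X (t + 1 + 1) 1 * X (t + 1) 2) -
          (X t 1 * X (t + 1) 2 - X (t + 1) 1 * X t 2) *
            (X (t + 1) 0 * X (t + 1 + 1) 1 - X (t + 1 + 1) 0 * X (t + 1) 1)) := by
        first
        | (left; simp only [hddef]; ring)
        | (right; simp only [hddef]; ring)
      show d t * X (t + 1) 1 ∈ E
      rcases e with e | e
      · rw [e]; exact this
      · rw [e]; exact E.neg_mem this
    · have := E.sub_mem (E.mul_mem p02 q12) (E.mul_mem p12 q02)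
      have e : d t * X (t + 1) 2 =
          (X t 0 * X (t + 1) 2 - X (t + 1) 0 * X t 2) *
            (X (t + 1) 1 * X (t + 1 + 1) 2 - X (t + 1 + 1) 1 * X (t + 1) 2) -
          (X t 1 * X (t + 1) 2 - X (t + 1) 1 * X t 2) *
            (X (t + 1) 0 * X (t + 1 + 1) 2 - X (t + 1 + 1) 0 * X (t + 1) 2) ∨
          d t * X (t + 1) 2 = -(
          (X t 0 * X (t + 1) 2 - X (t + 1) 0 * X t 2) *
            (X (t + 1) 1 * X (t + 1 + 1) 2 - X (t + 1 + 1) 1 * X (t + 1) 2) -
          (X t 1 * X (t + 1) 2 - X (t + 1) 1 * X t 2) *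
            (X (t + 1) 0 * X (t + 1 + 1) 2 - X (t + 1 + 1) 0 * X (t + 1) 2)) := by
        first
        | (left; simp only [hddef]; ring)
        | (right; simp only [hddef]; ring)
      show d t * X (t + 1) 2 ∈ E
      rcases e with e | e
      · rw [e]; exact this
      · rw [e]; exact E.neg_mem this
  have hB : ∀ t, d t * d (t + 1) ∈ E := by
    intro t
    have hC := hP (t + 1) 0 1 (by decide)
    have hC0 : X (t + 1) 0 * X (t + 1 + 1) 1 - X (t + 1 + 1) 0 * X (t + 1) 1 ≠ 0 :=
      hx.two (a 0) (a 1) (c (t + 1)) (c (t + 1 + 1)) (fun h => absurd (hainj h) (by decide))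
        (fun h => h1 _ (hc h))
    have e : d t * d (t + 1) =
        ((d t * X (t + 1) 0) * (d (t + 1) * X (t + 1 + 1) 1) -
          (d (t + 1) * X (t + 1 + 1) 0) * (d t * X (t + 1) 1)) /
        (X (t + 1) 0 * X (t + 1 + 1) 1 - X (t + 1 + 1) 0 * X (t + 1) 1) := by
      rw [eq_div_iff hC0]
      ring
    rw [e]
    exact E.div_mem (E.sub_mem (E.mul_mem (hA t 0) (hA (t + 1) 1))
      (E.mul_mem (hA (t + 1) 0) (hA t 1))) hC
  have hD : ∀ t, d t ∈ E := by
    intro t
    apply hsq
    rw [sq]
    exact odd_cycle E hm d hd hB t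
  intro s t
  have h3 := hA (t - 1) s
  rw [sub_add_cancel] at h3
  have e : x (a s) (c t) = d (t - 1) * X t s / d (t - 1) := by
    rw [mul_div_cancel_left₀ _ (hd _)]
  rw [e]
  exact E.div_mem h3 (hD _)

end Pool.Agent.K1H86.KT
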